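import Pool.Agent.Helper79.TLN.StN

/-!
# Project TL, low levels, module NE-E: rearrangement of the double series

Adapted from `Pool/Agent/Helper71/LV/M_NE.lean`.
-/

set_option autoImplicit false

namespace Pool.Agent.Helper85.TLN

open Pool.Agent.Helper79.TLN Pool.Agent.Helper28.LV Pool.Agent.Helper28.WK Pool.Agent.Helper14.WK
open Pool.Agent.Helper4.TL
open Pool.Agent.Helper14.CV (G0 Homog EqC act)

/-- The coefficients. -/
private noncomputable def bc (p a : ℕ) (A : ℕ → ℂ) (M : ℕ) : ℂ :=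
  ∑ s ∈ Finset.range (M + 1), if p ^ s ∣ M then (p : ℂ) ^ ((a + 1) * s) * A (M / p ^ s) else 0

private lemma core (p a : ℕ) (hp : p.Prime) (ha : Odd a) (A : ℕ → ℂ) (H : ℝ → ℂ)
    (hA0 : A 0 = 0) (hS : Summable (fun m : ℕ => ‖A m‖ / (m : ℝ) ^ (2 * a + 1)))
    (hH : ∀ x : ℝ, HasSum (fun m : ℕ => A m *
      ((2 * a).factorial / (2 * Real.pi * m) ^ (2 * a + 1) : ℝ) *
      Complex.exp (2 * Real.pi * Complex.I * m * x)) (H x)) (x : ℝ) :
    ∃ S : ℂ, HasSum (fun M : ℕ => bc p a A M / (2 * Real.pi * Complex.I * M) ^ (2 * a + 1) *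
      Complex.exp (2 * Real.pi * Complex.I * M * x)) S ∧
      HasSum (fun s : ℕ => ((p : ℂ) ^ (a * s))⁻¹ * H ((p : ℝ) ^ s * x))
        (-(((2 * a).factorial : ℂ) * Complex.I * S)) := by
  have h1a : 1 ≤ a := ha.pos
  set K : ℝ := (2 * a).factorial / (2 * Real.pi) ^ (2 * a + 1) with hK
  have hπ : (0 : ℝ) < 2 * Real.pi := by positivity
  have hK0 : 0 < K := by positivity
  have hKc : ((K : ℝ) : ℂ) = (2 * a).factorial / (2 * (Real.pi : ℂ)) ^ (2 * a + 1) := by
    rw [hK]; push_cast; ring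
  have hp0 : (p : ℂ) ≠ 0 := Nat.cast_ne_zero.mpr hp.ne_zero
  have hpr : (1 : ℝ) < p := by exact_mod_cast hp.one_lt
  -- the coefficients of `H`
  set c : ℕ → ℂ := fun m => A m * (K / (m : ℝ) ^ (2 * a + 1) : ℝ) with hc
  have hcm : ∀ m : ℕ, A m * (((2 * a).factorial / (2 * Real.pi * m) ^ (2 * a + 1) : ℝ) : ℂ) = c m := by
    intro m
    simp only [hc, hK]
    congr 2
    rw [mul_pow, div_div]
  have hc0 : c 0 = 0 := by simp [hc, hA0]
  have hcS : Summable (fun m : ℕ => ‖c m‖) := by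
    refine (hS.mul_left K).congr fun m => ?_
    simp only [hc, norm_mul, Complex.norm_real, Real.norm_eq_abs]
    rw [abs_of_nonneg (by positivity)]
    ring
  have hexp : ∀ y : ℝ, ‖Complex.exp (2 * Real.pi * Complex.I * y)‖ = 1 := by
    intro y
    have : (2 * Real.pi * Complex.I * y : ℂ) = ((2 * Real.pi * y : ℝ) : ℂ) * Complex.I := by
      push_cast; ring
    rw [this, Complex.norm_exp_ofReal_mul_I]
  set u : ℕ × ℕ → ℂ := fun q => ((p : ℂ) ^ (a * q.1))⁻¹ *
    (c q.2 * Complex.exp (2 * Real.pi * Complex.I * (((p : ℝ) ^ q.1 * q.2 * x : ℝ) : ℂ))) with hu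
  have huS : Summable u := by
    have hg : Summable (fun s : ℕ => (((p : ℝ) ^ a)⁻¹) ^ s) := by
      refine summable_geometric_of_lt_one (by positivity) ?_
      exact inv_lt_one_of_one_lt₀ (one_lt_pow₀ hpr (by omega))
    have h := Summable.mul_of_nonneg hg hcS (fun s => by positivity) (fun m => norm_nonneg _)
    refine Summable.of_norm_bounded h fun q => ?_
    simp only [hu, norm_mul, norm_inv, norm_pow, hexp, mul_one]
    rw [Complex.norm_natCast, pow_mul, ← inv_pow]
  obtain ⟨T, hT⟩ := huS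
  have h1 : HasSum (fun s : ℕ => ((p : ℂ) ^ (a * s))⁻¹ * H ((p : ℝ) ^ s * x)) T := by
    refine hT.prod_fiberwise fun s => ?_
    have h := (hH ((p : ℝ) ^ s * x)).mul_left (((p : ℂ) ^ (a * s))⁻¹)
    have e : (fun m : ℕ => u (s, m)) = fun m : ℕ => ((p : ℂ) ^ (a * s))⁻¹ * (A m *
        (((2 * a).factorial / (2 * Real.pi * m) ^ (2 * a + 1) : ℝ) : ℂ) *
        Complex.exp (2 * Real.pi * Complex.I * m * (((p : ℝ) ^ s * x : ℝ) : ℂ))) := by
      funext m
      rw [hcm]
      simp only [hu]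
      congr 3
      push_cast
      ring
    rw [e]
    exact h
  set v : ℕ × ℕ → ℂ := fun q => if p ^ q.2 ∣ q.1 then ((p : ℂ) ^ (a * q.2))⁻¹ *
    (c (q.1 / p ^ q.2) * Complex.exp (2 * Real.pi * Complex.I * q.1 * x)) else 0 with hv
  have hinj : Function.Injective (fun q : ℕ × ℕ => ((p ^ q.1 * q.2, q.1) : ℕ × ℕ)) := by
    rintro ⟨s, m⟩ ⟨s', m'⟩ h
    simp only [Prod.mk.injEq] at h
    obtain ⟨h1, rfl⟩ := h
    have := Nat.eq_of_mul_eq_mul_left (pow_pos hp.pos s) h1
    rw [this]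
  have hvu : v ∘ (fun q : ℕ × ℕ => ((p ^ q.1 * q.2, q.1) : ℕ × ℕ)) = u := by
    funext q
    obtain ⟨s, m⟩ := q
    simp only [hv, hu, Function.comp_apply]
    rw [if_pos (Dvd.intro _ rfl), Nat.mul_div_cancel_left _ (pow_pos hp.pos s)]
    congr 3
    push_cast
    ring
  have hvT : HasSum v T := by
    refine (hinj.hasSum_iff ?_).mp (by rw [hvu]; exact hT)
    rintro ⟨M, s⟩ h
    simp only [hv]
    rw [if_neg]
    rintro ⟨m, hm⟩
    exact h ⟨(s, m), by simp [hm]⟩
  have h3 : HasSum (fun M : ℕ => ∑ s ∈ Finset.range (M + 1), v (M, s)) T := by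
    refine hvT.prod_fiberwise fun M => ?_
    refine hasSum_sum_of_ne_finset_zero fun s hs => ?_
    simp only [Finset.mem_range, not_lt] at hs
    simp only [hv]
    split_ifs with hd
    · rcases Nat.eq_zero_or_pos M with rfl | hM
      · simp [hc0]
      · exfalso
        have h1 := Nat.le_of_dvd hM hd
        have h2 : s < p ^ s := Nat.lt_pow_self hp.one_lt
        omega
    · rfl
  have hterm : ∀ M : ℕ, ∑ s ∈ Finset.range (M + 1), v (M, s) =
      -(((2 * a).factorial : ℂ) * Complex.I) * (bc p a A M / (2 * Real.pi * Complex.I * M) ^ (2 * a + 1) *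
      Complex.exp (2 * Real.pi * Complex.I * M * x)) := by
    intro M
    have hI : Complex.I ^ (2 * a + 1) = -Complex.I := by
      obtain ⟨b, rfl⟩ := ha
      rw [show 2 * (2 * b + 1) + 1 = 4 * b + 3 by ring, pow_add, pow_mul, Complex.I_pow_four, one_pow,
        one_mul, Complex.I_pow_three]
    rw [bc]
    rw [Finset.sum_div, Finset.sum_mul, Finset.mul_sum]
    refine Finset.sum_congr rfl fun s _ => ?_
    simp only [hv]
    split_ifs with hd
    · obtain ⟨m, rfl⟩ := hd
      rw [Nat.mul_div_cancel_left _ (pow_pos hp.pos s)]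
      rcases Nat.eq_zero_or_pos m with rfl | hm
      · simp [hc0, hA0]
      · have hm0 : (m : ℂ) ≠ 0 := Nat.cast_ne_zero.mpr hm.ne'
        have hpi : (2 * (Real.pi : ℂ)) ≠ 0 := by exact_mod_cast hπ.ne'
        simp only [hc]
        push_cast
        rw [hKc]
        have e1 : (2 * (Real.pi : ℂ) * Complex.I * ((p : ℂ) ^ s * m)) ^ (2 * a + 1) =
            (2 * (Real.pi : ℂ)) ^ (2 * a + 1) * -Complex.I * ((p : ℂ) ^ ((a + 1) * s) * (p : ℂ) ^ (a * s)) *
              (m : ℂ) ^ (2 * a + 1) := by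
          have e2 : ((p : ℂ) ^ s) ^ (2 * a + 1) = (p : ℂ) ^ ((a + 1) * s) * (p : ℂ) ^ (a * s) := by
            rw [← pow_mul, ← pow_add]
            congr 1
            ring
          rw [mul_pow, mul_pow (2 * (Real.pi : ℂ)) Complex.I, hI, mul_pow ((p : ℂ) ^ s), e2]
          ring
        rw [e1]
        field_simp
    · simp
  have hcast : -(((2 * a).factorial : ℂ) * Complex.I) ≠ 0 :=
    neg_ne_zero.2 (mul_ne_zero (Nat.cast_ne_zero.mpr (Nat.factorial_ne_zero _)) Complex.I_ne_zero)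
  refine ⟨(-(((2 * a).factorial : ℂ) * Complex.I))⁻¹ * T, ?_, ?_⟩
  · have := h3.mul_left ((-(((2 * a).factorial : ℂ) * Complex.I))⁻¹)
    have e : (fun M : ℕ => bc p a A M / (2 * Real.pi * Complex.I * M) ^ (2 * a + 1) *
      Complex.exp (2 * Real.pi * Complex.I * M * x)) = fun M : ℕ =>
        (-(((2 * a).factorial : ℂ) * Complex.I))⁻¹ * ∑ s ∈ Finset.range (M + 1), v (M, s) := by
      funext M
      rw [hterm, inv_mul_cancel_left₀ hcast]
    rw [e]
    exact this
  · rw [← neg_mul, mul_inv_cancel_left₀ hcast]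
    exact h1

theorem hNE : SNNE := by
  intro hA1 hNH N p a hN f hp ha
  have hf0 : fcK f 0 = 0 := (hA1 N hN _ f Complex.I (by simp)).1
  obtain ⟨hS, hH⟩ := hNH N hN a f ha.pos
  have hbc : ∀ M : ℕ, bc p a (fcK f) M = bco p a f M := fun M => rfl
  have key := core p a hp ha (fcK f) (HK a f) hf0 hS hH
  refine ⟨?_, ?_, ?_, fun x => ?_⟩
  · simp [bco, hf0]
  · simp only [bco, Finset.sum_range_succ, Finset.range_zero, Finset.sum_empty]
    have : ¬ p ^ 1 ∣ 1 := by
      rw [pow_one, Nat.dvd_one]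
      exact hp.one_lt.ne'
    simp [hp.one_lt.ne']
  · obtain ⟨S, h, _⟩ := key 0
    have h3 := h.summable.norm
    refine (h3.mul_left ((2 * Real.pi) ^ (2 * a + 1))).congr fun M => ?_
    rw [hbc]
    have : ‖Complex.exp (2 * Real.pi * Complex.I * M * ((0 : ℝ) : ℂ))‖ = 1 := by simp
    rw [norm_mul, this, norm_div, norm_pow, norm_mul, norm_mul, norm_mul, Complex.norm_I,
      Complex.norm_natCast, Complex.norm_real, Complex.norm_ofNat, Real.norm_eq_abs,
      abs_of_pos Real.pi_pos, mul_one, mul_one, mul_pow (2 * Real.pi)]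
    have : (2 * Real.pi) ^ (2 * a + 1) ≠ 0 := by positivity
    rw [← div_div, ← mul_div_assoc, mul_div_cancel₀ _ this]
  · obtain ⟨S, h, h'⟩ := key (x / 2)
    obtain ⟨S', k, k'⟩ := key (-x / 2)
    have e1 : EE (2 * a) (bco p a f) ((x : ℂ) / 2) = S := by
      have := h.tsum_eq
      push_cast at this
      exact this
    have e2 : EE (2 * a) (bco p a f) (-(x : ℂ) / 2) = S' := by
      have := k.tsum_eq
      push_cast at this
      exact this
    rw [e1, e2]
    have h4 := (h'.sub k').tsum_eq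
    have e3 : -(((2 * a).factorial : ℂ) * Complex.I * (S - S')) =
        -(((2 * a).factorial : ℂ) * Complex.I * S) - -(((2 * a).factorial : ℂ) * Complex.I * S') := by
      ring
    rw [e3, ← h4, GpE]
    refine tsum_congr fun s => ?_
    have f1 : (p : ℝ) ^ s * x / 2 = (p : ℝ) ^ s * (x / 2) := by ring
    have f2 : -((p : ℝ) ^ s * (x / 2)) = (p : ℝ) ^ s * (-x / 2) := by ring
    rw [mul_sub, f1, f2]

end Pool.Agent.Helper85.TLN
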